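import Pool.Agent.TEQ.All

/-!
# MP_5f97cd_nt: equal totient values at even distance

For every `T`, almost every even `i` has at least `T` solutions `n` of `φ (n + i) = φ n`
(already among the `n ≤ C i`).
-/

set_option autoImplicit false

namespace Pool.Agent.Results.MP_5f97cd_nt.AlmostAllShifts

/-- For every `T` and every `ε > 0` there are `C` and `x₀` such that for all `x ≥ x₀` at most `ε x`
of the even numbers `i ∈ [1, x]` have fewer than `T` numbers `n ∈ [1, C i]` with
`φ (n + i) = φ n`. -/
theorem result : ∀ (T : ℕ) (ε : ℝ), 0 < ε → ∃ C x₀ : ℕ, ∀ x : ℕ, x₀ ≤ x →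
    (((Finset.Icc 1 x).filter fun i : ℕ => Even i ∧
      ((Finset.Icc 1 (C * i)).filter fun n : ℕ =>
        Nat.totient (n + i) = Nat.totient n).card < T).card : ℝ) ≤ ε * x :=
  Pool.Agent.TEQ.fin

end Pool.Agent.Results.MP_5f97cd_nt.AlmostAllShifts
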